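import Pool.Agent.helper36.YB.Spec

/-!
# Project yb, row FNC: the self-conjugate characters are functions of the norm
-/

set_option autoImplicit false

open Finset
open Pool.Agent.FI Pool.Agent.HK Pool.Agent.BP
open Pool.Agent.CH (nit rgh ll2)
open Pool.Agent.SK (tr0 Th)

noncomputable section

namespace Pool.Agent.YB

private theorem FNC_mul (z w : ℤ × ℤ) : N8 (mul8 z w) = N8 z * N8 w := by
  simp only [N8, mul8]
  ring

private theorem FNC_cop {z : ℤ × ℤ} {q : ℕ} (h : (q : ℤ) ∣ N8 z - 1) : Nat.Coprime (nn z) q := by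
  have h1 : IsCoprime (N8 z) (q : ℤ) := by
    obtain ⟨k, hk⟩ := h
    exact ⟨1, -k, by linear_combination hk⟩
  rw [Int.isCoprime_iff_nat_coprime, Int.natAbs_natCast] at h1
  exact h1

private theorem FNC_eq (hHLB : HLB_stmt) (q : ℕ) (ξ : ℤ × ℤ → ℂ) (hX : IsX q ξ) (hinv : XInv ξ 0 0) (hS : SCj q ξ 0 0)
    (z w : ℤ × ℤ) (hw : Nat.Coprime (nn w) q) (h : ((16 * q : ℕ) : ℤ) ∣ N8 z - N8 w) : ξ z = ξ w := by
  have hX' := hX
  obtain ⟨h2q, hq, hmul, hper, hzero, hone⟩ := hX
  have hξ2 : ξ (-1, 0) = 1 := by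
    have := hinv.2
    simpa using this
  have hξ1 : ξ (1, 0) = 1 := by
    have h1 := hmul (-1, 0) (-1, 0)
    have h2 : mul8 (-1, 0) (-1, 0) = (1, 0) := by
      simp [mul8]
    rw [h2, hξ2, mul_one] at h1
    exact h1
  have hodd : Nat.Coprime (nn w) (16 * q) := by
    have h1 : Nat.Coprime (nn w) 2 := Nat.Coprime.coprime_dvd_right h2q hw
    have h2 : Nat.Coprime (nn w) 16 := by
      have := Nat.Coprime.pow_right 4 h1
      simpa using this
    exact Nat.Coprime.mul_right h2 hw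
  have hcop : IsCoprime (N8 w) ((16 * q : ℕ) : ℤ) := by
    rw [Int.isCoprime_iff_nat_coprime, Int.natAbs_natCast]
    exact hodd
  obtain ⟨t, s, hts⟩ := hcop
  set w' : ℤ × ℤ := (t * w.1, -(t * w.2)) with hw'
  have e1 : ξ w * ξ w' = 1 := by
    rw [← hmul, ← hξ1]
    apply hper
    · refine ⟨-(16 * s), ?_⟩
      have : (mul8 w w').1 = t * N8 w := by
        simp only [mul8, hw', N8]
        ring
      rw [this]
      push_cast at hts
      linear_combination hts
    · refine ⟨0, ?_⟩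
      simp only [mul8, hw']
      ring
  have e2 : N8 w' = t ^ 2 * N8 w := by
    simp only [hw', N8]
    ring
  have e3 : ((16 * q : ℕ) : ℤ) ∣ N8 (mul8 z w') - 1 := by
    obtain ⟨k, hk⟩ := h
    refine ⟨k * t ^ 2 * N8 w - s * (t * N8 w + 1), ?_⟩
    rw [FNC_mul, e2]
    linear_combination t ^ 2 * N8 w * hk + (t * N8 w + 1) * hts
  have e4 : Nat.Coprime (nn (mul8 z w')) q := by
    apply FNC_cop
    refine dvd_trans ?_ e3
    refine ⟨16, ?_⟩
    push_cast
    ring
  have e5 := hHLB q ξ hX' hinv hS (mul8 z w') e4 e3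
  rw [hmul] at e5
  have e6 : ξ w' ≠ 0 := by
    intro h0
    rw [h0, mul_zero] at e1
    exact zero_ne_one e1
  exact mul_right_cancel₀ e6 (e5.trans e1.symm)

private theorem FNC_HX (ξ : ℤ × ℤ → ℂ) (i : ℕ) (z : ℤ × ℤ) : HX ξ 0 i 0 z = ξ z * ((N8 z).sign : ℂ) ^ i := by
  unfold HX
  simp

private theorem FNC_norm (q : ℕ) (ξ : ℤ × ℤ → ℂ) (hX : IsX q ξ) (i : ℕ) (z : ℤ × ℤ) : ‖HX ξ 0 i 0 z‖ ≤ 1 := by
  rw [FNC_HX, norm_mul, norm_pow]
  have h1 : ‖ξ z‖ ≤ 1 := by
    by_cases h : Nat.Coprime (nn z) q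
    · exact (hX.2.2.2.2.2 z h).le
    · rw [hX.2.2.2.2.1 z h, norm_zero]
      exact zero_le_one
  have h2 : ‖((N8 z).sign : ℂ)‖ ≤ 1 := by
    rcases lt_trichotomy (N8 z) 0 with h | h | h
    · rw [Int.sign_eq_neg_one_of_neg h]
      simp
    · rw [h]
      simp
    · rw [Int.sign_eq_one_of_pos h]
      simp
  exact mul_le_one₀ h1 (by positivity) (pow_le_one₀ (norm_nonneg _) h2)

/-- **FNC** -/
theorem FNC (hHLB : HLB_stmt) (hSIZ : SIZ_stmt) : FNC_stmt := by
  classical
  intro q ξ i hX hinv hS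
  have hq : 0 < q := hX.2.1
  let G : ℕ → ℂ := fun r =>
    if h : Nat.Coprime r q ∧ ∃ z : ℤ × ℤ, Fd z ∧ nn z % (16 * q) = r then HX ξ 0 i 0 (Classical.choose h.2) else 0
  have hmod : ∀ n : ℕ, Nat.Coprime (n % (16 * q)) q ↔ Nat.Coprime n q := by
    intro n
    have h1 : n % (16 * q) % q = n % q := Nat.mod_mod_of_dvd n (Dvd.intro_left 16 rfl)
    unfold Nat.Coprime
    rw [Nat.gcd_comm, Nat.gcd_rec, h1, ← Nat.gcd_rec, Nat.gcd_comm]
  refine ⟨fun n => G (n % (16 * q)), fun n => ?_, fun n => ?_, fun n hn => ?_, fun z hz => ?_⟩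
  · show G ((n + 16 * q) % (16 * q)) = G (n % (16 * q))
    rw [Nat.add_mod_right]
  · show ‖G (n % (16 * q))‖ ≤ 1
    simp only [G]
    split_ifs with h
    · exact FNC_norm q ξ hX i _
    · rw [norm_zero]
      exact zero_le_one
  · show G (n % (16 * q)) = 0
    simp only [G]
    rw [dif_neg]
    rintro ⟨h1, -⟩
    exact hn ((hmod n).mp h1)
  · show HX ξ 0 i 0 z = G (nn z % (16 * q))
    simp only [G]
    by_cases hc : Nat.Coprime (nn z) q
    · have hex : Nat.Coprime (nn z % (16 * q)) q ∧ ∃ z' : ℤ × ℤ, Fd z' ∧ nn z' % (16 * q) = nn z % (16 * q) :=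
        ⟨(hmod _).mpr hc, z, hz, rfl⟩
      rw [dif_pos hex]
      obtain ⟨hz', hzz⟩ := Classical.choose_spec hex.2
      set z' := Classical.choose hex.2 with hz'def
      have hc' : Nat.Coprime (nn z') q := by
        rw [← hmod, hzz, hmod]
        exact hc
      have h8 : nn z' % 8 = nn z % 8 := by
        have h1 : (8 : ℕ) ∣ 16 * q := ⟨2 * q, by ring⟩
        rw [← Nat.mod_mod_of_dvd (nn z') h1, hzz, Nat.mod_mod_of_dvd _ h1]
      have hd : ((16 * q : ℕ) : ℤ) ∣ (nn z : ℤ) - nn z' := by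
        exact (Nat.modEq_iff_dvd.mp (show nn z' ≡ nn z [MOD 16 * q] from hzz))
      obtain ⟨-, -, hpos, -, hs⟩ := hSIZ z hz
      obtain ⟨-, -, hpos', -, hs'⟩ := hSIZ z' hz'
      rw [FNC_HX, FNC_HX]
      rcases hs with ⟨h1, h2⟩ | ⟨h1, h2⟩
      · rcases hs' with ⟨h3, h4⟩ | ⟨h3, h4⟩
        · have h5 : ξ z = ξ z' := FNC_eq hHLB q ξ hX hinv hS z z' hc' (by rw [h1, h3]; exact hd)
          have h6 : (N8 z).sign = 1 := by
            rw [h1]
            exact Int.sign_eq_one_of_pos (by exact_mod_cast hpos)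
          have h7 : (N8 z').sign = 1 := by
            rw [h3]
            exact Int.sign_eq_one_of_pos (by exact_mod_cast hpos')
          rw [h5, h6, h7]
        · omega
      · rcases hs' with ⟨h3, h4⟩ | ⟨h3, h4⟩
        · omega
        · have h5 : ξ z = ξ z' := FNC_eq hHLB q ξ hX hinv hS z z' hc' (by
            rw [h1, h3]
            have : -(nn z : ℤ) - -(nn z' : ℤ) = -((nn z : ℤ) - nn z') := by ring
            rw [this]
            exact (dvd_neg).mpr hd)
          have h6 : (N8 z).sign = -1 := by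
            rw [h1]
            exact Int.sign_eq_neg_one_of_neg (by
              have : (0 : ℤ) < nn z := by exact_mod_cast hpos
              linarith)
          have h7 : (N8 z').sign = -1 := by
            rw [h3]
            exact Int.sign_eq_neg_one_of_neg (by
              have : (0 : ℤ) < nn z' := by exact_mod_cast hpos'
              linarith)
          rw [h5, h6, h7]
    · rw [dif_neg]
      · rw [FNC_HX, hX.2.2.2.2.1 z hc, zero_mul]
      · rintro ⟨h1, -⟩
        exact hc ((hmod _).mp h1)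

end Pool.Agent.YB
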