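import Pool.Agent.helper36.YB.Spec

/-!
# Project yb, row HLB (Hilbert 90 modulo `q`)
-/

set_option autoImplicit false

open Finset
open Pool.Agent.FI Pool.Agent.HK Pool.Agent.BP
open Pool.Agent.CH (nit rgh ll2)
open Pool.Agent.SK (tr0 Th)

noncomputable section

namespace Pool.Agent.YB

private theorem HLB_mul (z w : ℤ × ℤ) : N8 (mul8 z w) = N8 z * N8 w := by
  simp only [N8, mul8]
  ring

/-- a prime divides a product of primes of a set only if it is in the set -/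
private theorem HLB_prod {p : ℕ} (hp : p.Prime) (S : Finset ℕ) (hS : ∀ r ∈ S, r.Prime) (h : (p : ℤ) ∣ ∏ r ∈ S, (r : ℤ)) : p ∈ S := by
  have hp' : Prime (p : ℤ) := Nat.prime_iff_prime_int.mp hp
  obtain ⟨r, hr, hpr⟩ := (hp'.dvd_finsetProd_iff _).mp h
  have h1 : p ∣ r := by exact_mod_cast hpr
  have h2 : p = r := (Nat.prime_dvd_prime_iff_eq hp (hS r hr)).mp h1
  rw [h2]
  exact hr

private theorem HLB_core (q : ℕ) (ξ : ℤ × ℤ → ℂ) (hX : IsX q ξ) (hS : ∀ z : ℤ × ℤ, Nat.Coprime (nn z) q → ξ (cj z) = ξ z)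
    (a l : ℤ) (hN : ((16 * q : ℕ) : ℤ) ∣ N8 (1 + 4 * a, 2 * l) - 1) : ξ (1 + 4 * a, 2 * l) = 1 := by
  classical
  obtain ⟨h2q, hq, hmul, hper, hzero, hone⟩ := hX
  set S₁ : Finset ℕ := q.primeFactors.filter fun p => p ≠ 2 ∧ (p : ℤ) ∣ 2 + 4 * a with hS₁
  set S₂ : Finset ℕ := q.primeFactors.filter fun p => p ≠ 2 ∧ ¬ (p : ℤ) ∣ 2 + 4 * a with hS₂
  set u : ℤ := ∏ r ∈ S₁, (r : ℤ) with hu
  set v : ℤ := ∏ r ∈ S₂, (r : ℤ) with hv
  have hP₁ : ∀ r ∈ S₁, r.Prime := fun r hr => Nat.prime_of_mem_primeFactors (Finset.mem_filter.mp hr).1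
  have hP₂ : ∀ r ∈ S₂, r.Prime := fun r hr => Nat.prime_of_mem_primeFactors (Finset.mem_filter.mp hr).1
  set ζ : ℤ × ℤ := (u * (1 + 2 * a) - 8 * l * v, l * u - 2 * a * v) with hζ
  have hodd : ¬ (2 : ℤ) ∣ u := by
    intro h
    have h1 := HLB_prod Nat.prime_two S₁ hP₁ (by exact_mod_cast h)
    exact (Finset.mem_filter.mp h1).2.1 rfl
  have hN1 : N8 (1 + 4 * a, 2 * l) - 1 = 8 * a + 16 * a ^ 2 - 32 * l ^ 2 := by
    simp only [N8]
    ring
  have key : 4 * N8 ζ = u ^ 2 * (2 * (2 + 4 * a) + (N8 (1 + 4 * a, 2 * l) - 1)) +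
      v ^ 2 * (-8 * (N8 (1 + 4 * a, 2 * l) - 1) + 16 * (2 + 4 * a) - 32) - 64 * l * u * v := by
    rw [hN1, hζ]
    simp only [N8]
    ring
  have hcop : Nat.Coprime (nn ζ) q := by
    by_contra hcon
    obtain ⟨p, hp, hpz, hpq⟩ := Nat.Prime.not_coprime_iff_dvd.mp hcon
    have hp' : Prime (p : ℤ) := Nat.prime_iff_prime_int.mp hp
    have hpN : (p : ℤ) ∣ N8 ζ := by
      have := Int.natCast_dvd.mpr hpz
      exact this
    have hpN1 : (p : ℤ) ∣ N8 (1 + 4 * a, 2 * l) - 1 := by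
      refine dvd_trans ?_ hN
      exact_mod_cast Dvd.dvd.mul_left hpq 16
    by_cases hp2 : p = 2
    · subst hp2
      have h1 : (2 : ℤ) ∣ N8 ζ := by exact_mod_cast hpN
      have h2 : N8 ζ = u ^ 2 + 2 * (2 * u ^ 2 * a + 2 * u ^ 2 * a ^ 2 - 8 * u * (1 + 2 * a) * l * v + 32 * l ^ 2 * v ^ 2 - 4 * (l * u - 2 * a * v) ^ 2) := by
        rw [hζ]
        simp only [N8]
        ring
      rw [h2] at h1
      have h3 : (2 : ℤ) ∣ u ^ 2 := (dvd_add_left (dvd_mul_right _ _)).mp h1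
      exact hodd (Int.prime_two.dvd_of_dvd_pow h3)
    · have hpm : p ∈ q.primeFactors := Nat.mem_primeFactors.mpr ⟨hp, hpq, hq.ne'⟩
      have hp2' : ¬ (p : ℤ) ∣ 2 := by
        intro h
        have h1 : p ∣ 2 := by exact_mod_cast h
        exact hp2 ((Nat.prime_dvd_prime_iff_eq hp Nat.prime_two).mp h1)
      have h4 : (p : ℤ) ∣ 4 * N8 ζ := Dvd.dvd.mul_left hpN 4
      rw [key] at h4
      by_cases hpa : (p : ℤ) ∣ 2 + 4 * a
      · have hpu : (p : ℤ) ∣ u := Finset.dvd_prod_of_mem (fun r : ℕ => (r : ℤ)) (Finset.mem_filter.mpr ⟨hpm, hp2, hpa⟩)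
        have hpv : ¬ (p : ℤ) ∣ v := fun h => by
          have h1 := HLB_prod hp S₂ hP₂ h
          exact (Finset.mem_filter.mp h1).2.2 hpa
        have h5 : (p : ℤ) ∣ 2 ^ 5 * v ^ 2 := by
          obtain ⟨x, hx⟩ := hpu
          obtain ⟨y, hy⟩ := hpa
          obtain ⟨w, hw⟩ := hpN1
          obtain ⟨t, ht⟩ := h4
          rw [hx, hy, hw] at ht
          refine ⟨p * x ^ 2 * (2 * (p * y) + p * w) + v ^ 2 * (-8 * w + 16 * y) - 64 * l * x * v - t, ?_⟩
          linear_combination -ht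
        rcases hp'.dvd_or_dvd h5 with h6 | h6
        · exact hp2' (hp'.dvd_of_dvd_pow h6)
        · exact hpv (hp'.dvd_of_dvd_pow h6)
      · have hpv : (p : ℤ) ∣ v := Finset.dvd_prod_of_mem (fun r : ℕ => (r : ℤ)) (Finset.mem_filter.mpr ⟨hpm, hp2, hpa⟩)
        have hpu : ¬ (p : ℤ) ∣ u := fun h => by
          have h1 := HLB_prod hp S₁ hP₁ h
          exact hpa (Finset.mem_filter.mp h1).2.2
        have h5 : (p : ℤ) ∣ u ^ 2 * (2 * (2 + 4 * a)) := by
          obtain ⟨x, hx⟩ := hpv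
          obtain ⟨w, hw⟩ := hpN1
          obtain ⟨t, ht⟩ := h4
          rw [hx, hw] at ht
          refine ⟨t - u ^ 2 * w - p * x ^ 2 * (-8 * (p * w) + 16 * (2 + 4 * a) - 32) + 64 * l * u * x, ?_⟩
          linear_combination ht
        rcases hp'.dvd_or_dvd h5 with h6 | h6
        · exact hpu (hp'.dvd_of_dvd_pow h6)
        · rcases hp'.dvd_or_dvd h6 with h7 | h7
          · exact hp2' h7
          · exact hpa h7
  obtain ⟨k, hk⟩ := hN
  have hM : 4 * a + 8 * a ^ 2 - 16 * l ^ 2 = (q : ℤ) * (8 * k) := by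
    rw [hN1] at hk
    push_cast at hk
    linarith
  have h6 : ξ ζ = ξ (mul8 (1 + 4 * a, 2 * l) (cj ζ)) := by
    apply hper
    · refine ⟨-(8 * k) * u, ?_⟩
      rw [hζ]
      simp only [mul8, cj]
      linear_combination (-u) * hM
    · refine ⟨-(8 * k) * v, ?_⟩
      rw [hζ]
      simp only [mul8, cj]
      linear_combination (-v) * hM
  rw [hmul, hS ζ hcop] at h6
  have h7 : ξ ζ ≠ 0 := by
    intro h
    have := hone ζ hcop
    rw [h, norm_zero] at this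
    exact one_ne_zero this.symm
  have h8 : ξ (1 + 4 * a, 2 * l) * ξ ζ = 1 * ξ ζ := by rw [one_mul]; exact h6.symm
  exact mul_right_cancel₀ h7 h8

/-- **HLB** -/
theorem HLB : HLB_stmt := by
  intro q ξ hX hinv hS z _ hN
  have hX' := hX
  obtain ⟨h2q, hq, hmul, hper, hzero, hone⟩ := hX
  have hξ1 : ξ (3, 1) = 1 := by
    have := hinv.1
    simpa using this
  have hξ2 : ξ (-1, 0) = 1 := by
    have := hinv.2
    simpa using this
  have hN4 : (4 : ℤ) ∣ N8 z - 1 := by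
    refine dvd_trans ?_ hN
    refine ⟨4 * q, ?_⟩
    push_cast
    ring
  have hz1 : z.1 % 2 = 1 := by
    obtain ⟨k, hk⟩ := hN4
    simp only [N8] at hk
    rcases Int.emod_two_eq_zero_or_one z.1 with h | h
    · exfalso
      obtain ⟨m, hm⟩ := Int.dvd_of_emod_eq_zero h
      rw [hm] at hk
      have : 4 * (m ^ 2 - 2 * z.2 ^ 2 - k) = 1 := by linarith [hk]
      omega
    · exact h
  -- the second coordinate even
  obtain ⟨w, hw1, hw2, hwN, hwξ⟩ : ∃ w : ℤ × ℤ, w.1 % 2 = 1 ∧ w.2 % 2 = 0 ∧ N8 w = N8 z ∧ ξ w = ξ z := by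
    rcases Int.emod_two_eq_zero_or_one z.2 with h | h
    · exact ⟨z, hz1, h, rfl, rfl⟩
    · refine ⟨mul8 z (3, 1), ?_, ?_, ?_, ?_⟩
      · simp only [mul8]
        omega
      · simp only [mul8]
        omega
      · rw [HLB_mul]
        have : N8 (3, 1) = 1 := by norm_num [N8]
        rw [this, mul_one]
      · rw [hmul, hξ1, mul_one]
  obtain ⟨w', hw1', hw2', hwN', hwξ'⟩ : ∃ w' : ℤ × ℤ, w'.1 % 4 = 1 ∧ w'.2 % 2 = 0 ∧ N8 w' = N8 z ∧ ξ w' = ξ z := by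
    have h4 : w.1 % 4 = 1 ∨ w.1 % 4 = 3 := by omega
    rcases h4 with h | h
    · exact ⟨w, h, hw2, hwN, hwξ⟩
    · refine ⟨mul8 w (-1, 0), ?_, ?_, ?_, ?_⟩
      · simp only [mul8]
        omega
      · simp only [mul8]
        omega
      · rw [HLB_mul, hwN]
        have : N8 (-1, 0) = 1 := by norm_num [N8]
        rw [this, mul_one]
      · rw [hmul, hξ2, mul_one, hwξ]
  have e : w' = (1 + 4 * (w'.1 / 4), 2 * (w'.2 / 2)) := by
    refine Prod.ext ?_ ?_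
    · show w'.1 = 1 + 4 * (w'.1 / 4)
      omega
    · show w'.2 = 2 * (w'.2 / 2)
      omega
  rw [← hwξ', e]
  refine HLB_core q ξ hX' hS.2.2 _ _ ?_
  rw [← e, hwN']
  exact hN

end Pool.Agent.YB
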