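import Pool.Agent.helper36.YB.Spec

/-! # Project yb, row MLX: multiples of an odd element -/

set_option autoImplicit false

open Finset
open Pool.Agent.FI Pool.Agent.HK Pool.Agent.BP
open Pool.Agent.CH (nit rgh ll2)
open Pool.Agent.SK (tr0 Th)

noncomputable section

namespace Pool.Agent.YB


private theorem MLX_comm (z w : ℤ × ℤ) : mul8 z w = mul8 w z := by
  unfold mul8
  refine Prod.ext ?_ ?_
  · change z.1 * w.1 + 8 * z.2 * w.2 = w.1 * z.1 + 8 * w.2 * z.2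
    ring
  · change z.1 * w.2 + z.2 * w.1 = w.1 * z.2 + w.2 * z.1
    ring

private theorem MLX_assoc (a b c : ℤ × ℤ) : mul8 (mul8 a b) c = mul8 a (mul8 b c) := by
  unfold mul8
  refine Prod.ext ?_ ?_
  · change (a.1 * b.1 + 8 * a.2 * b.2) * c.1 + 8 * (a.1 * b.2 + a.2 * b.1) * c.2 =
      a.1 * (b.1 * c.1 + 8 * b.2 * c.2) + 8 * a.2 * (b.1 * c.2 + b.2 * c.1)
    ring
  · change (a.1 * b.1 + 8 * a.2 * b.2) * c.2 + (a.1 * b.2 + a.2 * b.1) * c.1 =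
      a.1 * (b.1 * c.2 + b.2 * c.1) + a.2 * (b.1 * c.1 + 8 * b.2 * c.2)
    ring

private theorem MLX_left (a b c : ℤ × ℤ) : mul8 a (mul8 b c) = mul8 b (mul8 a c) := by
  rw [← MLX_assoc, MLX_comm a b, MLX_assoc]

private theorem MLX_N8 (a b : ℤ × ℤ) : N8 (mul8 a b) = N8 a * N8 b := by
  unfold N8 mul8
  ring

private theorem MLX_nn (a b : ℤ × ℤ) : nn (mul8 a b) = nn a * nn b := by
  unfold nn
  rw [MLX_N8, Int.natAbs_mul]

private theorem MLX_cj (a b : ℤ × ℤ) : mul8 (cj a) (mul8 a b) = (N8 a * b.1, N8 a * b.2) := by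
  unfold N8 mul8 cj
  refine Prod.ext ?_ ?_
  · change a.1 * (a.1 * b.1 + 8 * a.2 * b.2) + 8 * -a.2 * (a.1 * b.2 + a.2 * b.1) = (a.1 ^ 2 - 8 * a.2 ^ 2) * b.1
    ring
  · change a.1 * (a.1 * b.2 + a.2 * b.1) + -a.2 * (a.1 * b.1 + 8 * a.2 * b.2) = (a.1 ^ 2 - 8 * a.2 ^ 2) * b.2
    ring

private theorem MLX_cj1 {u : ℤ × ℤ} (hu : N8 u = 1) (b : ℤ × ℤ) : mul8 (cj u) (mul8 u b) = b := by
  rw [MLX_cj, hu, one_mul, one_mul]

private theorem MLX_cjn (u : ℤ × ℤ) : N8 (cj u) = N8 u := by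
  unfold N8 cj
  ring

private theorem MLX_nz {w : ℤ × ℤ} (hw : w.1 % 2 = 1) : N8 w ≠ 0 := by
  unfold N8
  intro h
  have h1 : w.1 ^ 2 % 2 = 1 := by
    rw [pow_two, Int.mul_emod, hw]
    norm_num
  omega

private theorem MLX_cancel {w x y : ℤ × ℤ} (hw : w.1 % 2 = 1) (h : mul8 w x = mul8 w y) : x = y := by
  have h1 : mul8 (cj w) (mul8 w x) = mul8 (cj w) (mul8 w y) := by rw [h]
  rw [MLX_cj, MLX_cj] at h1
  have h2 := congrArg Prod.fst h1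
  have h3 := congrArg Prod.snd h1
  exact Prod.ext (mul_left_cancel₀ (MLX_nz hw) h2) (mul_left_cancel₀ (MLX_nz hw) h3)

private theorem MLX_odd {a b : ℤ × ℤ} (ha : a.1 % 2 = 1) (hb : b.1 % 2 = 1) : (mul8 a b).1 % 2 = 1 := by
  change (a.1 * b.1 + 8 * a.2 * b.2) % 2 = 1
  have h1 : a.1 * b.1 % 2 = 1 := by
    rw [Int.mul_emod, ha, hb]
    norm_num
  have h2 : 8 * a.2 * b.2 = 2 * (4 * a.2 * b.2) := by ring
  omega

private theorem MLX_odd' {a b : ℤ × ℤ} (h : (mul8 a b).1 % 2 = 1) : b.1 % 2 = 1 := by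
  change (a.1 * b.1 + 8 * a.2 * b.2) % 2 = 1 at h
  have h2 : 8 * a.2 * b.2 = 2 * (4 * a.2 * b.2) := by ring
  have h3 : a.1 * b.1 % 2 = 1 := by omega
  rcases Int.emod_two_eq_zero_or_one b.1 with h4 | h4
  · rw [Int.mul_emod, h4] at h3
    norm_num at h3
  · exact h4

private theorem MLX_unit {u : ℤ × ℤ} (hu : N8 u = 1) : u.1 % 2 = 1 := by
  unfold N8 at hu
  rcases Int.emod_two_eq_zero_or_one u.1 with h4 | h4
  · exfalso
    have h1 : u.1 ^ 2 % 2 = 0 := by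
      rw [pow_two, Int.mul_emod, h4]
      norm_num
    omega
  · exact h4

private theorem MLX_one (z : ℤ × ℤ) : mul8 (1, 0) z = z := by
  unfold mul8
  refine Prod.ext ?_ ?_
  · change 1 * z.1 + 8 * 0 * z.2 = z.1
    ring
  · change 1 * z.2 + 0 * z.1 = z.2
    ring

private theorem MLX_nn1 {u : ℤ × ℤ} (hu : N8 u = 1) : nn u = 1 := by
  unfold nn
  rw [hu]
  rfl

private theorem MLX_fd {u : ℕ} {z : ℤ × ℤ} (h : z ∈ FF u) : Fd z := by
  classical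
  unfold FF at h
  exact (Finset.mem_filter.1 h).2.1

private theorem MLX_odd_fd {z : ℤ × ℤ} (h : Fd z) : z.1 % 2 = 1 := h.1

/-- **MLX** -/
theorem MLX (hFDE : FDE_stmt) (hFDU : FDU_stmt) (hSIZ : SIZ_stmt) : MLX_stmt := by
  classical
  intro Ψ hΨ w hw m hm
  obtain ⟨hm1, hu1⟩ := hΨ
  have hE : ∀ v : ℤ × ℤ, ∃ u : ℤ × ℤ, Fd v → N8 u = 1 ∧ Fd (mul8 u (mul8 w v)) := by
    intro v
    by_cases hv : Fd v
    · obtain ⟨u, h1, h2⟩ := hFDE (mul8 w v) (MLX_odd hw hv.1)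
      exact ⟨u, fun _ => ⟨h1, h2⟩⟩
    · exact ⟨(1, 0), fun h => absurd h hv⟩
  choose U hU using hE
  have hval : ∀ v, Fd v → Ψ (mul8 (U v) (mul8 w v)) = Ψ w * Ψ v := by
    intro v hv
    obtain ⟨h1, _⟩ := hU v hv
    rw [hm1 _ _ (MLX_unit h1) (MLX_odd hw hv.1), hu1 _ h1, one_mul, hm1 _ _ hw hv.1]
  have hnw : 0 < nn w := Int.natAbs_pos.2 (MLX_nz hw)
  unfold rf
  rw [Finset.mul_sum]
  symm
  refine Finset.sum_bij (fun v _ => mul8 (U v) (mul8 w v)) ?_ ?_ ?_ ?_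
  · intro v hv
    rw [Finset.mem_filter] at hv
    have hf := MLX_fd hv.1
    obtain ⟨h1, h2⟩ := hU v hf
    have h3 : nn (mul8 (U v) (mul8 w v)) = m * nn w := by
      rw [MLX_nn, MLX_nn, MLX_nn1 h1, hv.2, one_mul, mul_comm]
    rw [Finset.mem_filter]
    refine ⟨?_, h3, ⟨mul8 (U v) v, ?_⟩⟩
    · have h4 := (hSIZ _ h2).2.2.2.1
      rw [h3] at h4
      exact h4
    · rw [MLX_left]
  · intro v1 hv1 v2 hv2 he
    rw [Finset.mem_filter] at hv1 hv2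
    have hf1 := MLX_fd hv1.1
    have hf2 := MLX_fd hv2.1
    obtain ⟨a1, _⟩ := hU v1 hf1
    obtain ⟨a2, _⟩ := hU v2 hf2
    have he' : mul8 (U v1) (mul8 w v1) = mul8 (U v2) (mul8 w v2) := he
    rw [MLX_left, MLX_left (U v2)] at he'
    have h1 := MLX_cancel hw he'
    have h2 : v1 = mul8 (mul8 (cj (U v1)) (U v2)) v2 := by
      rw [MLX_assoc, ← h1, MLX_cj1 a1]
    have h3 := hFDU v2 (mul8 (cj (U v1)) (U v2)) hf2
      (by rw [MLX_nn, MLX_nn1 (by rw [MLX_cjn]; exact a1), MLX_nn1 a2]) (by rw [← h2]; exact hf1)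
    rw [h2, h3, MLX_one]
  · intro z hz
    rw [Finset.mem_filter] at hz
    have hf := MLX_fd hz.1
    obtain ⟨v, hv⟩ := hz.2.2
    have hvo : v.1 % 2 = 1 := MLX_odd' (a := w) (by rw [hv]; exact hf.1)
    obtain ⟨u, hu, hfu⟩ := hFDE v hvo
    have hnv : nn v = m := by
      have h1 := hz.2.1
      rw [← hv, MLX_nn, mul_comm] at h1
      exact Nat.eq_of_mul_eq_mul_right hnw h1
    have hnu : nn (mul8 u v) = m := by rw [MLX_nn, MLX_nn1 hu, one_mul, hnv]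
    refine ⟨mul8 u v, ?_, ?_⟩
    · rw [Finset.mem_filter]
      refine ⟨?_, hnu⟩
      have h4 := (hSIZ _ hfu).2.2.2.1
      rw [hnu] at h4
      exact h4
    · obtain ⟨a1, a2⟩ := hU (mul8 u v) hfu
      have h5 : mul8 w (mul8 u v) = mul8 u z := by rw [MLX_left, hv]
      rw [h5, ← MLX_assoc] at a2 ⊢
      have h6 := hFDU z _ hf (by rw [MLX_nn, MLX_nn1 a1, MLX_nn1 hu]) a2
      rw [h6, MLX_one]
  · intro v hv
    rw [Finset.mem_filter] at hv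
    exact (hval v (MLX_fd hv.1)).symm

end Pool.Agent.YB
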