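import Pool.Agent.helper36.YB.Spec

/-!
# Project yb, row GRX: the characters of the unit group of `ℤ[√8]` modulo `q`
-/

set_option autoImplicit false

open Finset
open Pool.Agent.FI Pool.Agent.HK Pool.Agent.BP
open Pool.Agent.CH (nit rgh ll2)
open Pool.Agent.SK (tr0 Th)

noncomputable section

namespace Pool.Agent.YB

/-- The ring `ℤ[√8]` modulo `d`. -/
abbrev GRX_R (d : ℕ) : Type := QuadraticAlgebra (ZMod d) 8 0

/-- Reduction modulo `d`. -/
def GRX_U (d : ℕ) (z : ℤ × ℤ) : GRX_R d := ⟨(z.1 : ZMod d), (z.2 : ZMod d)⟩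

theorem GRX_U_mul (d : ℕ) (z w : ℤ × ℤ) : GRX_U d (mul8 z w) = GRX_U d z * GRX_U d w := by
  apply QuadraticAlgebra.ext
  · rw [QuadraticAlgebra.re_mul]
    unfold GRX_U mul8
    push_cast
    ring
  · rw [QuadraticAlgebra.im_mul]
    unfold GRX_U mul8
    push_cast
    ring

theorem GRX_norm (d : ℕ) (z : ℤ × ℤ) :
    QuadraticAlgebra.norm (GRX_U d z) = ((N8 z : ℤ) : ZMod d) := by
  rw [QuadraticAlgebra.norm_def]
  unfold GRX_U N8
  push_cast
  ring

theorem GRX_unit (d : ℕ) (z : ℤ × ℤ) : IsUnit (GRX_U d z) ↔ Nat.Coprime (nn z) d := by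
  rw [QuadraticAlgebra.isUnit_iff_norm_isUnit, GRX_norm, ZMod.coe_int_isUnit_iff_isCoprime,
    Int.isCoprime_iff_nat_coprime, Int.natAbs_natCast]
  exact Nat.coprime_comm

theorem GRX_eq (d : ℕ) (z w : ℤ × ℤ) : GRX_U d z = GRX_U d w ↔ (d : ℤ) ∣ z.1 - w.1 ∧ (d : ℤ) ∣ z.2 - w.2 := by
  have e1 : (d : ℤ) ∣ z.1 - w.1 ↔ ((z.1 : ℤ) : ZMod d) = ((w.1 : ℤ) : ZMod d) := by
    rw [eq_comm, ZMod.intCast_eq_intCast_iff_dvd_sub]
  have e2 : (d : ℤ) ∣ z.2 - w.2 ↔ ((z.2 : ℤ) : ZMod d) = ((w.2 : ℤ) : ZMod d) := by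
    rw [eq_comm, ZMod.intCast_eq_intCast_iff_dvd_sub]
  rw [e1, e2]
  constructor
  · intro h
    exact ⟨congrArg QuadraticAlgebra.re h, congrArg QuadraticAlgebra.im h⟩
  · rintro ⟨h1, h2⟩
    exact QuadraticAlgebra.ext h1 h2

theorem GRX_finite (d : ℕ) [NeZero d] : Finite (GRX_R d) :=
  Finite.of_equiv _ (QuadraticAlgebra.equivProd (8 : ZMod d) 0).symm

/-- The unit group, written additively. -/
def GRX_A (d : ℕ) : Type := Additive (GRX_R d)ˣ

instance GRX_inst (d : ℕ) : AddCommGroup (GRX_A d) :=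
  inferInstanceAs (AddCommGroup (Additive (GRX_R d)ˣ))

/-- The class of a unit. -/
def GRX_cl (d : ℕ) (u : (GRX_R d)ˣ) : GRX_A d := Additive.ofMul u

theorem GRX_cl_mul (d : ℕ) (u v : (GRX_R d)ˣ) : GRX_cl d (u * v) = GRX_cl d u + GRX_cl d v := rfl

theorem GRX_finite_A (d : ℕ) [NeZero d] : Finite (GRX_A d) := by
  have := GRX_finite d
  exact (inferInstance : Finite (GRX_R d)ˣ)

open scoped Classical in
/-- The character of `ℤ[√8]` given by a character of the unit group. -/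
def GRX_psi (d : ℕ) (χ : AddChar (GRX_A d) ℂ) (z : ℤ × ℤ) : ℂ :=
  if h : IsUnit (GRX_U d z) then χ (GRX_cl d h.unit) else 0

theorem GRX_psi_unit (d : ℕ) (χ : AddChar (GRX_A d) ℂ) (z : ℤ × ℤ) (u : (GRX_R d)ˣ)
    (hu : (u : GRX_R d) = GRX_U d z) :
    GRX_psi d χ z = χ (GRX_cl d u) := by
  have h : IsUnit (GRX_U d z) := hu ▸ u.isUnit
  have h1 : h.unit = u := Units.ext hu.symm
  unfold GRX_psi
  rw [dif_pos h, h1]

theorem GRX_isX (d : ℕ) [NeZero d] (h2 : 2 ∣ d) (χ : AddChar (GRX_A d) ℂ) :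
    IsX d (GRX_psi d χ) := by
  have := GRX_finite_A d
  refine ⟨h2, Nat.pos_of_ne_zero (NeZero.ne d), ?_, ?_, ?_, ?_⟩
  · intro z w
    by_cases hz : IsUnit (GRX_U d z)
    · by_cases hw : IsUnit (GRX_U d w)
      · rw [GRX_psi_unit d χ z hz.unit rfl, GRX_psi_unit d χ w hw.unit rfl,
          GRX_psi_unit d χ (mul8 z w) (hz.unit * hw.unit) (GRX_U_mul d z w).symm,
          ← AddChar.map_add_eq_mul, GRX_cl_mul]
      · have h1 : ¬ IsUnit (GRX_U d (mul8 z w)) := by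
          rw [GRX_U_mul]
          exact fun h => hw (isUnit_of_mul_isUnit_right h)
        unfold GRX_psi
        rw [dif_neg h1, dif_neg hw, mul_zero]
    · have h1 : ¬ IsUnit (GRX_U d (mul8 z w)) := by
        rw [GRX_U_mul]
        exact fun h => hz (isUnit_of_mul_isUnit_left h)
      unfold GRX_psi
      rw [dif_neg h1, dif_neg hz, zero_mul]
  · intro z w h1 h2
    have h3 : GRX_U d z = GRX_U d w := (GRX_eq d z w).mpr ⟨h1, h2⟩
    unfold GRX_psi
    rw [h3]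
  · intro z hz
    unfold GRX_psi
    rw [dif_neg]
    rw [GRX_unit]
    exact hz
  · intro z hz
    rw [← GRX_unit] at hz
    rw [GRX_psi_unit d χ z hz.unit rfl]
    exact AddChar.norm_apply χ _

theorem GRX_card (d : ℕ) [NeZero d] : Nat.card (GRX_A d) ≤ d ^ 2 := by
  have := GRX_finite d
  have h1 : Nat.card (GRX_A d) ≤ Nat.card (GRX_R d) :=
    Nat.card_le_card_of_injective (fun u : GRX_A d => ((Additive.toMul u : (GRX_R d)ˣ) : GRX_R d)) (fun u v h => by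
      exact Additive.toMul.injective (Units.ext h))
  have h2 : Nat.card (GRX_R d) = d ^ 2 := by
    rw [Nat.card_congr (QuadraticAlgebra.equivProd (8 : ZMod d) 0), Nat.card_prod, Nat.card_zmod, sq]
  rw [h2] at h1
  exact h1

/-- **GRX** -/
theorem GRX : GRX_stmt := by
  intro q h2 hq
  have : NeZero q := ⟨hq.ne'⟩
  have := GRX_finite_A q
  classical
  have hf : Fintype (GRX_A q) := Fintype.ofFinite _
  have hcard : Fintype.card (AddChar (GRX_A q) ℂ) = Nat.card (GRX_A q) := by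
    rw [AddChar.card_eq, ← Nat.card_eq_fintype_card]
  have e : Fin (Nat.card (GRX_A q)) ≃ AddChar (GRX_A q) ℂ :=
    (Fintype.equivFinOfCardEq hcard).symm
  refine ⟨Nat.card (GRX_A q), fun i => GRX_psi q (e i), Nat.card_pos, GRX_card q,
    fun i => GRX_isX q h2 (e i), ?_⟩
  intro z c hz hc
  rw [← GRX_unit] at hz hc
  have h1 : ∑ i, GRX_psi q (e i) z * (starRingEnd ℂ) (GRX_psi q (e i) c) =
      ∑ χ : AddChar (GRX_A q) ℂ, χ (GRX_cl q hz.unit - GRX_cl q hc.unit) := by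
    rw [← Equiv.sum_comp e]
    apply Finset.sum_congr rfl
    intro i _
    rw [GRX_psi_unit q (e i) z hz.unit rfl, GRX_psi_unit q (e i) c hc.unit rfl,
      ← AddChar.map_neg_eq_conj, ← AddChar.map_add_eq_mul, sub_eq_add_neg]
  rw [h1, AddChar.sum_apply_eq_ite]
  have h3 : GRX_cl q hz.unit - GRX_cl q hc.unit = 0 ↔ (q : ℤ) ∣ z.1 - c.1 ∧ (q : ℤ) ∣ z.2 - c.2 := by
    rw [sub_eq_zero, ← GRX_eq]
    constructor
    · intro h
      have h4 : hz.unit = hc.unit := Additive.ofMul.injective h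
      exact congrArg Units.val h4
    · intro h
      have h4 : hz.unit = hc.unit := Units.ext h
      rw [h4]
  rw [Nat.card_eq_fintype_card]
  by_cases h4 : (q : ℤ) ∣ z.1 - c.1 ∧ (q : ℤ) ∣ z.2 - c.2
  · rw [if_pos h4, if_pos (h3.mpr h4)]
  · rw [if_neg h4, if_neg (fun h5 => h4 (h3.mp h5))]

end Pool.Agent.YB
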